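import Pool.Agent.Helper95.HV.Stmts
import Pool.Agent.Helper53.LN.VIR

/-!
# Row V2I: the second derivative of the potential energy, fields equal to `e_m` near the nuclei
-/

set_option autoImplicit false

namespace Pool.Agent.Helper49.HV

open MeasureTheory Filter Pool.Agent.Helper95.PW Pool.Agent.Helper95.LN Pool.Agent.Helper95.CF
open Pool.Agent.Helper95.HV Pool.Agent.Helper53.LN Pool.Agent.Helper14.PW
open Pool.Agent.Helper82.PN (pgb_tri)

theorem Tq_neg (ξ v w : R3) : Tq (-ξ) v w = Tq ξ v w := by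
  have h : nr (-ξ) = nr ξ := by
    unfold nr
    congr 1
    simp only [Pi.neg_apply]
    ring
  unfold Tq
  rw [h]
  simp only [Pi.neg_apply, mul_neg, Finset.sum_neg_distrib]
  ring

theorem Tq_swap (a b v w : R3) : Tq (a - b) v w = Tq (b - a) v w := by
  rw [← Tq_neg, neg_sub]

theorem Tq_sub (ξ a b : R3) : Tq ξ (a - b) (a - b) = Tq ξ a a + Tq ξ b b - 2 * Tq ξ a b := by
  unfold Tq
  simp only [Fin.sum_univ_three, Pi.sub_apply]
  ring

theorem Tq_self (v w : R3) (a : R3) : Tq (a - a) v w = 0 := by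
  unfold Tq
  simp [nr]

theorem dot_le {ξ v : R3} {a : ℝ} (ha : 0 ≤ a) (hv : ∀ m, |v m| ≤ a) :
    |∑ m, v m * ξ m| ≤ 3 * a * nr ξ := by
  have h : ∀ m, |v m * ξ m| ≤ a * nr ξ := fun m => by
    rw [abs_mul]
    exact mul_le_mul (hv m) (VIR_comp ξ m) (abs_nonneg _) ha
  refine (Finset.abs_sum_le_sum_abs _ _).trans ?_
  rw [Fin.sum_univ_three]
  linarith [h 0, h 1, h 2]

theorem dot_le2 {v w : R3} {a b : ℝ} (ha : 0 ≤ a) (hv : ∀ m, |v m| ≤ a) (hw : ∀ m, |w m| ≤ b) :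
    |∑ m, v m * w m| ≤ 3 * (a * b) := by
  have h : ∀ m, |v m * w m| ≤ a * b := fun m => by
    rw [abs_mul]
    exact mul_le_mul (hv m) (hw m) (abs_nonneg _) ha
  refine (Finset.abs_sum_le_sum_abs _ _).trans ?_
  rw [Fin.sum_univ_three]
  linarith [h 0, h 1, h 2]

theorem Tq_le {ξ v w : R3} {a b : ℝ} (ha : 0 ≤ a) (hb : 0 ≤ b) (hv : ∀ m, |v m| ≤ a)
    (hw : ∀ m, |w m| ≤ b) : |Tq ξ v w| ≤ 30 * (a * b) / nr ξ ^ 3 := by
  rcases (VIR_nr0 ξ).eq_or_lt with h0 | h0
  · unfold Tq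
    rw [← h0]
    simp
  · have h1 := dot_le (ξ := ξ) ha hv
    have h2 := dot_le (ξ := ξ) hb hw
    have h3 := dot_le2 ha hv hw
    unfold Tq
    have e1 : |3 * (∑ m, v m * ξ m) * (∑ m, w m * ξ m) / nr ξ ^ 5| ≤
        27 * (a * b) / nr ξ ^ 3 := by
      rw [abs_div, abs_mul, abs_mul, abs_of_pos (pow_pos h0 5),
        abs_of_pos (by norm_num : (0 : ℝ) < 3), div_le_div_iff₀ (by positivity) (by positivity)]
      have := mul_le_mul h1 h2 (abs_nonneg _) (by positivity)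
      have h5 := mul_le_mul_of_nonneg_right this (by positivity : 0 ≤ 3 * nr ξ ^ 3)
      calc _ = |∑ m, v m * ξ m| * |∑ m, w m * ξ m| * (3 * nr ξ ^ 3) := by ring
        _ ≤ 3 * a * nr ξ * (3 * b * nr ξ) * (3 * nr ξ ^ 3) := h5
        _ = _ := by ring
    have e2 : |(∑ m, v m * w m) / nr ξ ^ 3| ≤ 3 * (a * b) / nr ξ ^ 3 := by
      rw [abs_div, abs_of_pos (pow_pos h0 3)]
      exact div_le_div_of_nonneg_right h3 (by positivity)
    refine (abs_sub _ _).trans ?_
    calc _ ≤ 27 * (a * b) / nr ξ ^ 3 + 3 * (a * b) / nr ξ ^ 3 := add_le_add e1 e2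
      _ = _ := by ring

section

variable {g : R3 → ℝ} {K ρ : ℝ}

theorem gq_poea (g : R3 → ℝ) (y : R3) (i : Fin 3) : gq g y i = poea g i y := by
  unfold gq poea
  exact Finset.sum_congr rfl fun j _ => mul_comm _ _

theorem K_nn (hS : Scale g K ρ) : 0 ≤ K := (abs_nonneg _).trans (hS.d1 0 0)

theorem gv_lip (hS : Scale g K ρ) (hρ : 0 < ρ) (a b : R3) (m : Fin 3) :
    |(gv g a - gv g b) m| ≤ 3 * (K / ρ) * nr (a - b) := by
  have hK := K_nn hS
  have hd : Differentiable ℝ (pd m g) := (poe_pd_cd hS.sm m).differentiable (by simp)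
  exact poe_lip hd (by positivity) (fun j y => hS.d2 j m y) a b

theorem gq_lip (hS : Scale g K ρ) (hρ : 0 < ρ) (a b : R3) (m : Fin 3) :
    |gq g a m - gq g b m| ≤ 3 * (6 * (K ^ 2 / ρ ^ 2)) * nr (a - b) := by
  rw [gq_poea, gq_poea]
  exact poe_lip ((poea_cd hS.sm m).differentiable (by simp)) (by positivity)
    (fun j y => poea_pd hS hρ m j y) a b

theorem gq_le (hS : Scale g K ρ) (hρ : 0 < ρ) (y : R3) (m : Fin 3) :
    |gq g y m| ≤ 3 * (K ^ 2 / ρ) := by
  have hK := K_nn hS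
  have := dot_le2 (v := fun l => pd l (pd m g) y) (w := fun l => pd l g y) (a := K / ρ) (b := K)
    (by positivity) (fun l => hS.d2 l m y) (fun l => hS.d1 l y)
  calc _ ≤ 3 * (K / ρ * K) := this
    _ = _ := by ring

/-- contribution of the electron `l` to the electron `k` -/
noncomputable def ta {n : ℕ} (g : R3 → ℝ) (x : Cf n) (k l : Fin n) : ℝ :=
  Tq (x k - x l) (gv g (x k)) (gv g (x k)) -
    (∑ i, gq g (x k) i * (x k i - x l i)) / nr (x k - x l) ^ 3

/-- the nucleus `j` (charge one) -/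
noncomputable def tn {n M : ℕ} (X : Fin M → R3) (g : R3 → ℝ) (x : Cf n) (k : Fin n)
    (j : Fin M) : ℝ :=
  (∑ i, gq g (x k) i * (x k i - X j i)) / nr (x k - X j) ^ 3 -
    Tq (x k - X j) (gv g (x k)) (gv g (x k))

/-- the pair term -/
noncomputable def tp {n : ℕ} (g : R3 → ℝ) (x : Cf n) (k l : Fin n) : ℝ :=
  Tq (x k - x l) (gv g (x k) - gv g (x l)) (gv g (x k) - gv g (x l)) -
      (∑ i, (gq g (x k) i - gq g (x l) i) * (x k i - x l i)) / nr (x k - x l) ^ 3

theorem ta_self {n : ℕ} (g : R3 → ℝ) (x : Cf n) (k : Fin n) : ta g x k k = 0 := by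
  unfold ta
  rw [Tq_self]
  simp

theorem tp_eq {n : ℕ} (g : R3 → ℝ) (x : Cf n) (k l : Fin n) :
    tp g x k l = ta g x k l + ta g x l k - 2 * Tq (x k - x l) (gv g (x k)) (gv g (x l)) := by
  unfold tp ta
  rw [Tq_sub, Tq_swap (x l) (x k), VIR_sym (x l) (x k)]
  have e : (∑ i, (gq g (x k) i - gq g (x l) i) * (x k i - x l i)) / nr (x k - x l) ^ 3 =
      (∑ i, gq g (x k) i * (x k i - x l i)) / nr (x k - x l) ^ 3 +
      (∑ i, gq g (x l) i * (x l i - x k i)) / nr (x k - x l) ^ 3 := by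
    rw [← add_div, ← Finset.sum_add_distrib]
    congr 1
    exact Finset.sum_congr rfl fun i _ => by ring
  rw [e]
  ring

/-- near pairs -/
theorem tp_le (hS : Scale g K ρ) (hρ : 0 < ρ) {n : ℕ} (x : Cf n) (k l : Fin n)
    (hr : 0 < nr (x k - x l)) : |tp g x k l| ≤ 324 * (K ^ 2 / ρ ^ 2) * (1 / nr (x k - x l)) := by
  have hK := K_nn hS
  unfold tp
  have h1 := Tq_le (ξ := x k - x l) (v := gv g (x k) - gv g (x l)) (w := gv g (x k) - gv g (x l))
    (a := 3 * (K / ρ) * nr (x k - x l)) (b := 3 * (K / ρ) * nr (x k - x l)) (by positivity)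
    (by positivity) (gv_lip hS hρ _ _) (gv_lip hS hρ _ _)
  have h2 : |(∑ i, (gq g (x k) i - gq g (x l) i) * (x k i - x l i)) / nr (x k - x l) ^ 3| ≤
      54 * (K ^ 2 / ρ ^ 2) * (1 / nr (x k - x l)) := by
    have h3 := dot_le (ξ := x k - x l) (v := fun i => gq g (x k) i - gq g (x l) i)
      (a := 3 * (6 * (K ^ 2 / ρ ^ 2)) * nr (x k - x l)) (by positivity) (gq_lip hS hρ _ _)
    rw [abs_div, abs_of_pos (pow_pos hr 3), div_le_iff₀ (by positivity)]
    refine h3.trans (le_of_eq ?_)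
    field_simp
    ring
  refine (abs_sub _ _).trans ?_
  have h4 : 30 * (3 * (K / ρ) * nr (x k - x l) * (3 * (K / ρ) * nr (x k - x l))) /
      nr (x k - x l) ^ 3 = 270 * (K ^ 2 / ρ ^ 2) * (1 / nr (x k - x l)) := by
    field_simp
    ring
  rw [h4] at h1
  calc _ ≤ 270 * (K ^ 2 / ρ ^ 2) * (1 / nr (x k - x l)) +
        54 * (K ^ 2 / ρ ^ 2) * (1 / nr (x k - x l)) := add_le_add h1 h2
    _ = _ := by ring

end

section

variable {n M : ℕ} {X : Fin M → R3} {d : ℝ} {x : Cf n} {g : R3 → ℝ}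

/-- both electrons near one nucleus -/
noncomputable def cc (X : Fin M → R3) (d : ℝ) (x : Cf n) (k l : Fin n) : ℝ :=
  ∑ i, sw X (3 / 2 * d) x i k * sw X (3 / 2 * d) x i l

theorem sw_one {i : Fin M} {k : Fin n} (h : nr (x k - X i) < 3 / 2 * d) :
    sw X (3 / 2 * d) x i k = 1 := by
  unfold sw
  rw [if_pos h]

theorem sw_zero {i : Fin M} {k : Fin n} (h : ¬ nr (x k - X i) < 3 / 2 * d) :
    sw X (3 / 2 * d) x i k = 0 := by
  unfold sw
  rw [if_neg h]

theorem sw_other (hd : 0 < d) (hS : Sep X d) {i j : Fin M} {k : Fin n}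
    (h : nr (x k - X i) < 3 / 2 * d) (hj : j ≠ i) : sw X (3 / 2 * d) x j k = 0 := by
  apply sw_zero
  intro h2
  have h1 := hS j i hj
  have h3 := pgb_tri (X j) (X i) (x k)
  linarith

theorem cc_eq (hd : 0 < d) (hS : Sep X d) {i : Fin M} {k : Fin n}
    (h : nr (x k - X i) < 3 / 2 * d) (l : Fin n) :
    cc X d x k l = sw X (3 / 2 * d) x i l := by
  unfold cc
  rw [Finset.sum_eq_single i]
  · rw [sw_one h, one_mul]
  · intro j _ hj
    rw [sw_other hd hS h hj, zero_mul]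
  · intro h
    exact absurd (Finset.mem_univ _) h

theorem cc_nn (X : Fin M → R3) (d : ℝ) (x : Cf n) (k l : Fin n) : 0 ≤ cc X d x k l :=
  Finset.sum_nonneg fun i _ => mul_nonneg (sw_nonneg _ _ _ _ _) (sw_nonneg _ _ _ _ _)

theorem cc_symm (X : Fin M → R3) (d : ℝ) (x : Cf n) (k l : Fin n) :
    cc X d x k l = cc X d x l k := by
  unfold cc
  exact Finset.sum_congr rfl fun i _ => mul_comm _ _

theorem cc_le (hd : 0 < d) (hS : Sep X d) (k l : Fin n) : cc X d x k l ≤ 1 := by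
  by_cases h : ∃ i, nr (x k - X i) < 3 / 2 * d
  · obtain ⟨i, hi⟩ := h
    rw [cc_eq hd hS hi]
    exact sw_le _ _ _ _ _
  · push Not at h
    unfold cc
    rw [Finset.sum_eq_zero]
    · norm_num
    · intro i _
      rw [sw_zero (not_lt.2 (h i)), zero_mul]

theorem cc_01 (hd : 0 < d) (hS : Sep X d) (k l : Fin n) : cc X d x k l = 0 ∨ cc X d x k l = 1 := by
  by_cases h : ∃ i, nr (x k - X i) < 3 / 2 * d
  · obtain ⟨i, hi⟩ := h
    rw [cc_eq hd hS hi]
    unfold sw
    split_ifs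
    · right; rfl
    · left; rfl
  · push Not at h
    left
    unfold cc
    rw [Finset.sum_eq_zero]
    intro i _
    rw [sw_zero (not_lt.2 (h i)), zero_mul]

theorem cc_sum (X : Fin M → R3) (d : ℝ) (x : Cf n) :
    ∑ k, ∑ l, cc X d x k l = ∑ i, cnt X (3 / 2 * d) x i ^ 2 := by
  unfold cc
  have e1 : ∑ i, cnt X (3 / 2 * d) x i ^ 2 =
      ∑ i, ∑ k, ∑ l, sw X (3 / 2 * d) x i k * sw X (3 / 2 * d) x i l := by
    refine Finset.sum_congr rfl fun i _ => ?_
    rw [pow_two]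
    change (∑ k, sw X (3 / 2 * d) x i k) * (∑ l, sw X (3 / 2 * d) x i l) = _
    rw [Finset.sum_mul]
    exact Finset.sum_congr rfl fun k _ => Finset.mul_sum _ _ _
  rw [e1]
  calc ∑ k, ∑ l, ∑ i, sw X (3 / 2 * d) x i k * sw X (3 / 2 * d) x i l =
      ∑ k, ∑ i, ∑ l, sw X (3 / 2 * d) x i k * sw X (3 / 2 * d) x i l :=
        Finset.sum_congr rfl fun k _ => Finset.sum_comm
    _ = _ := Finset.sum_comm

theorem van (hout : ∀ y, (∀ j, d / 2 < nr (y - X j)) → ∀ i, pd i g y = 0) {y : R3}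
    (h : ∀ j, d / 2 < nr (y - X j)) : gv g y = 0 ∧ ∀ i, gq g y i = 0 := by
  refine ⟨funext fun i => hout y h i, fun i => ?_⟩
  unfold gq
  exact Finset.sum_eq_zero fun l _ => by rw [hout y h l, mul_zero]

theorem Tq_z1 (ξ w : R3) : Tq ξ 0 w = 0 := by
  unfold Tq
  simp

theorem Tq_z2 (ξ v : R3) : Tq ξ v 0 = 0 := by
  unfold Tq
  simp

theorem cross_zero (hd : 0 < d) (hS : Sep X d)
    (hout : ∀ y, (∀ j, d / 2 < nr (y - X j)) → ∀ i, pd i g y = 0) {k l : Fin n}
    (hr : nr (x k - x l) ≤ d) (hc : cc X d x k l = 0) :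
    Tq (x k - x l) (gv g (x k)) (gv g (x l)) = 0 := by
  by_cases h1 : ∀ j, d / 2 < nr (x k - X j)
  · rw [(van hout h1).1, Tq_z1]
  by_cases h2 : ∀ j, d / 2 < nr (x l - X j)
  · rw [(van hout h2).1, Tq_z2]
  exfalso
  push Not at h1 h2
  obtain ⟨i, hi⟩ := h1
  obtain ⟨j, hj⟩ := h2
  rw [cc_eq hd hS (i := i) (by linarith)] at hc
  have h3 : ¬ nr (x l - X i) < 3 / 2 * d := by
    intro h4
    rw [sw_one h4] at hc
    exact one_ne_zero hc
  by_cases hij : j = i
  · rw [hij] at hj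
    exact h3 (by linarith)
  · have h4 := hS j i hij
    have h5 := pgb_tri (X j) (X i) (x l)
    have h6 := pgb_tri (x l) (X i) (x k)
    linarith

/-- near pairs -/
theorem partA (h4 : ST_KK) (hd : 0 < d) (hSep : Sep X d) {K ρ : ℝ} (hS : Scale g K ρ)
    (hρ : 0 < ρ) (hD : Dist X x) :
    ∑ k, ∑ l, (if k < l then cc X d x k l * tp g x k l else 0) ≤
      324 * (K ^ 2 / ρ ^ 2) * (Rem (d / 8) x + 16 / d * ∑ i, cnt X (3 / 2 * d) x i ^ 2) := by
  have hb : 0 < d / 8 := by positivity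
  have hP : 0 ≤ 324 * (K ^ 2 / ρ ^ 2) := by positivity
  rw [← cc_sum]
  unfold Rem
  rw [Finset.mul_sum, ← Finset.sum_add_distrib, Finset.mul_sum]
  refine Finset.sum_le_sum fun k _ => ?_
  rw [Finset.mul_sum, ← Finset.sum_add_distrib, Finset.mul_sum]
  refine Finset.sum_le_sum fun l _ => ?_
  have hc0 := cc_nn X d x k l
  have hc1 := cc_le (x := x) hd hSep k l
  have h16 : 0 ≤ 16 / d * cc X d x k l := by positivity
  split_ifs with h
  · have hr0 : nr (x k - x l) ≠ 0 := hD.1 k l h.ne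
    have hr : 0 < nr (x k - x l) := lt_of_le_of_ne (VIR_nr0 _) (Ne.symm hr0)
    have hK1 := (h4 (d / 8) (x k - x l) hb).2.1 hr0
    have hK2 := (h4 (d / 8) (x k - x l) hb).2.2.2
    have hK3 : 2 / (d / 8) = 16 / d := by
      field_simp
      norm_num
    rw [hK3] at hK2
    have h5 := (le_abs_self _).trans (tp_le hS hρ x k l hr)
    have h6 := mul_le_mul_of_nonneg_left h5 hc0
    have h7 : cc X d x k l * (1 / nr (x k - x l)) ≤
        1 / nr (x k - x l) - Kf (d / 8) (x k - x l) + 16 / d * cc X d x k l := by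
      nlinarith
    have h8 := mul_le_mul_of_nonneg_left h7 hP
    linarith
  · rw [zero_add]
    exact mul_nonneg hP h16

/-- cross terms -/
theorem partC (hd : 0 < d) (hSep : Sep X d) {K ρ : ℝ} (hS : Scale g K ρ)
    (hout : ∀ y, (∀ j, d / 2 < nr (y - X j)) → ∀ i, pd i g y = 0) :
    ∑ k, ∑ l, (if k < l then
      -((1 - cc X d x k l) * Tq (x k - x l) (gv g (x k)) (gv g (x l))) else 0) ≤
      -(∑ k, ∑ l, if k < l ∧ d < nr (x k - x l) then
        Tq (x k - x l) (gv g (x k)) (gv g (x l)) else 0) +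
      30 * K ^ 2 / d ^ 3 * ∑ i, cnt X (3 / 2 * d) x i ^ 2 := by
  have hK := K_nn hS
  have hP : 0 ≤ 30 * K ^ 2 / d ^ 3 := by positivity
  rw [← cc_sum, Finset.mul_sum, ← Finset.sum_neg_distrib, ← Finset.sum_add_distrib]
  refine Finset.sum_le_sum fun k _ => ?_
  rw [Finset.mul_sum, ← Finset.sum_neg_distrib, ← Finset.sum_add_distrib]
  refine Finset.sum_le_sum fun l _ => ?_
  have hc0 := cc_nn X d x k l
  have h1 : 0 ≤ 30 * K ^ 2 / d ^ 3 * cc X d x k l := mul_nonneg hP hc0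
  by_cases h : k < l
  · rw [if_pos h]
    by_cases h2 : d < nr (x k - x l)
    · rw [if_pos ⟨h, h2⟩]
      have h3 := (le_abs_self _).trans (Tq_le (ξ := x k - x l) (v := gv g (x k))
        (w := gv g (x l)) (a := K) (b := K) hK hK (fun m => hS.d1 m _) (fun m => hS.d1 m _))
      have h5 : 30 * (K * K) / nr (x k - x l) ^ 3 ≤ 30 * K ^ 2 / d ^ 3 := by
        rw [← pow_two]
        exact div_le_div_of_nonneg_left (by positivity) (by positivity)
          (pow_le_pow_left₀ hd.le h2.le 3)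
      have h6 := mul_le_mul_of_nonneg_left (h3.trans h5) hc0
      linarith
    · rw [if_neg (fun h3 => h2 h3.2)]
      rcases cc_01 (x := x) hd hSep k l with h3 | h3
      · rw [cross_zero hd hSep hout (not_lt.1 h2) h3]
        linarith
      · rw [h3] at h1 ⊢
        linarith
  · rw [if_neg h, if_neg (fun h3 => h h3.1)]
    linarith

/-- identity for an electron near the nucleus `i` -/
theorem partD_id (hd : 0 < d) (hSep : Sep X d) (Z : Fin M → ℝ) {k : Fin n} {i : Fin M}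
    (hi : nr (x k - X i) < 3 / 2 * d) :
    ∑ l, (1 - cc X d x k l) * ta g x k l + ∑ j, Z j * tn X g x k j =
      ((∑ l, if nr (x l - X i) < 3 / 2 * d then 0 else
          Tq (x k - x l) (gv g (x k)) (gv g (x k))) -
        ∑ j, if j = i then 0 else Z j * Tq (x k - X j) (gv g (x k)) (gv g (x k))) -
      ∑ m, gq g (x k) m * farE d X Z x i m (x k) + Z i * tn X g x k i := by
  have e1 : ∑ m, gq g (x k) m * farE d X Z x i m (x k) =
      ∑ l, (if nr (x l - X i) < 3 / 2 * d then 0 else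
        (∑ m, gq g (x k) m * (x k m - x l m)) / nr (x k - x l) ^ 3) -
        ∑ j, (if j = i then 0 else
          Z j * ((∑ m, gq g (x k) m * (x k m - X j m)) / nr (x k - X j) ^ 3)) := by
    have h0 : ∀ m, gq g (x k) m * farE d X Z x i m (x k) =
        (∑ l, if nr (x l - X i) < 3 / 2 * d then 0 else
          gq g (x k) m * ((x k m - x l m) / nr (x k - x l) ^ 3)) -
        ∑ j, (if j = i then 0 else
          Z j * (gq g (x k) m * ((x k m - X j m) / nr (x k - X j) ^ 3))) := by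
      intro m
      unfold farE
      rw [mul_sub, Finset.mul_sum, Finset.mul_sum]
      congr 1
      · refine Finset.sum_congr rfl fun l _ => ?_
        split_ifs <;> ring
      · refine Finset.sum_congr rfl fun j _ => ?_
        split_ifs <;> ring
    rw [Finset.sum_congr rfl (fun m _ => h0 m), Finset.sum_sub_distrib]
    congr 1
    · rw [Finset.sum_comm]
      refine Finset.sum_congr rfl fun l _ => ?_
      split_ifs
      · simp
      · rw [Finset.sum_div]
        exact Finset.sum_congr rfl fun m _ => by ring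
    · rw [Finset.sum_comm]
      refine Finset.sum_congr rfl fun j _ => ?_
      split_ifs
      · simp
      · rw [Finset.sum_div, Finset.mul_sum]
        exact Finset.sum_congr rfl fun m _ => by ring
  have e2 : ∑ l, (1 - cc X d x k l) * ta g x k l =
      (∑ l, if nr (x l - X i) < 3 / 2 * d then 0 else
          Tq (x k - x l) (gv g (x k)) (gv g (x k))) -
      ∑ l, (if nr (x l - X i) < 3 / 2 * d then 0 else
        (∑ m, gq g (x k) m * (x k m - x l m)) / nr (x k - x l) ^ 3) := by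
    rw [← Finset.sum_sub_distrib]
    refine Finset.sum_congr rfl fun l _ => ?_
    rw [cc_eq hd hSep hi]
    unfold sw ta
    split_ifs <;> ring
  have e3 : ∑ j, Z j * tn X g x k j = Z i * tn X g x k i +
      (∑ j, (if j = i then 0 else
          Z j * ((∑ m, gq g (x k) m * (x k m - X j m)) / nr (x k - X j) ^ 3)) -
        ∑ j, if j = i then 0 else Z j * Tq (x k - X j) (gv g (x k)) (gv g (x k))) := by
    have h1 : ∀ j, Z j * tn X g x k j = (if j = i then Z i * tn X g x k i else 0) +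
        ((if j = i then 0 else
          Z j * ((∑ m, gq g (x k) m * (x k m - X j m)) / nr (x k - X j) ^ 3)) -
        (if j = i then 0 else Z j * Tq (x k - X j) (gv g (x k)) (gv g (x k)))) := by
      intro j
      split_ifs with h
      · subst h
        ring
      · unfold tn
        ring
    rw [Finset.sum_congr rfl (fun j _ => h1 j), Finset.sum_add_distrib,
      Finset.sum_sub_distrib]
    simp
  rw [e1, e2, e3]
  ring

theorem partD (hd : 0 < d) (hSep : Sep X d) (Z : Fin M → ℝ) {K ρ CF : ℝ} (hS : Scale g K ρ)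
    (hρ : 0 < ρ) (hCF : 0 ≤ CF)
    (hout : ∀ y, (∀ j, d / 2 < nr (y - X j)) → ∀ i, pd i g y = 0) {e : Fin M → ℝ}
    (he : ∀ i m y, nr (y - X i) ≤ d → |farE d X Z x i m y| ≤ e i)
    (hFG : ∀ (i : Fin M) (v w y : R3), (∀ m, |v m| ≤ K) → (∀ m, |w m| ≤ K) →
      nr (y - X i) ≤ d / 2 →
      |(∑ l, if nr (x l - X i) < 3 / 2 * d then 0 else Tq (y - x l) v w) -
        ∑ j, if j = i then 0 else Z j * Tq (y - X j) v w| ≤ CF * K ^ 2 * e i) (k : Fin n) :
    ∑ l, (1 - cc X d x k l) * ta g x k l + ∑ j, Z j * tn X g x k j ≤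
      ∑ i, sw X (3 / 2 * d) x i k * ((CF * K ^ 2 + 9 * (K ^ 2 / ρ)) * e i) +
        ∑ i, sw X (3 / 2 * d) x i k * (Z i * tn X g x k i) := by
  have hK := K_nn hS
  have he0 : ∀ i, 0 ≤ e i := by
    intro i
    refine le_trans (abs_nonneg _) (he i 0 (X i) ?_)
    rw [sub_self]
    have : nr (0 : R3) = 0 := by simp [nr]
    rw [this]
    exact hd.le
  by_cases h : ∀ j, d / 2 < nr (x k - X j)
  · obtain ⟨v1, v2⟩ := van hout h
    have h1 : ∀ l, ta g x k l = 0 := by
      intro l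
      unfold ta
      rw [v1, Tq_z1]
      simp [v2]
    have h2 : ∀ j, tn X g x k j = 0 := by
      intro j
      unfold tn
      rw [v1, Tq_z1]
      simp [v2]
    simp only [h1, h2, mul_zero, Finset.sum_const_zero, add_zero]
    refine Finset.sum_nonneg fun i _ => mul_nonneg (sw_nonneg _ _ _ _ _)
      (mul_nonneg (by positivity) (he0 i))
  · push Not at h
    obtain ⟨i, hi⟩ := h
    have hi2 : nr (x k - X i) < 3 / 2 * d := by linarith
    have s1 : ∀ f : Fin M → ℝ, ∑ i', sw X (3 / 2 * d) x i' k * f i' = f i := by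
      intro f
      rw [Finset.sum_eq_single i]
      · rw [sw_one hi2, one_mul]
      · intro j _ hj
        rw [sw_other hd hSep hi2 hj, zero_mul]
      · intro h
        exact absurd (Finset.mem_univ _) h
    rw [s1 (fun i => (CF * K ^ 2 + 9 * (K ^ 2 / ρ)) * e i), s1 (fun i => Z i * tn X g x k i),
      partD_id hd hSep Z hi2]
    have h3 := (abs_le.1 (hFG i (gv g (x k)) (gv g (x k)) (x k) (fun m => hS.d1 m _)
      (fun m => hS.d1 m _) hi)).2
    have h4 := dot_le2 (v := fun m => gq g (x k) m) (w := fun m => farE d X Z x i m (x k))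
      (a := 3 * (K ^ 2 / ρ)) (b := e i) (by positivity) (fun m => gq_le hS hρ _ m)
      (fun m => he i m _ (by linarith))
    have h5 := (abs_le.1 h4).1
    linarith

/-- the second derivative, up to the own nuclei -/
theorem main (h4 : ST_KK) (hd : 0 < d) (hd1 : d ≤ 1) (hSep : Sep X d) (Z : Fin M → ℝ)
    {K ρ CF CD : ℝ} (hS : Scale g K ρ) (hρ : 0 < ρ) (hρd : ρ ≤ d) (hCF : 0 ≤ CF) (hCD : 0 ≤ CD)
    (hout : ∀ y, (∀ j, d / 2 < nr (y - X j)) → ∀ i, pd i g y = 0) (hD : Dist X x)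
    {e : Fin M → ℝ}
    (he : ∀ i m y, nr (y - X i) ≤ d → |farE d X Z x i m y| ≤ e i)
    (hFG : ∀ (i : Fin M) (v w y : R3), (∀ m, |v m| ≤ K) → (∀ m, |w m| ≤ K) →
      nr (y - X i) ≤ d / 2 →
      |(∑ l, if nr (x l - X i) < 3 / 2 * d then 0 else Tq (y - x l) v w) -
        ∑ j, if j = i then 0 else Z j * Tq (y - X j) v w| ≤ CF * K ^ 2 * e i)
    (hDIP : -(∑ k, ∑ l, if k < l ∧ d < nr (x k - x l) then
        Tq (x k - x l) (gv g (x k)) (gv g (x l)) else 0) ≤
      CD * K ^ 2 * ∑ i, cnt X (3 / 2 * d) x i ^ 2) :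
    D2 X Z g x ≤ K ^ 2 / ρ ^ 2 * (324 * Rem (d / 8) x +
      (324 * (16 / d) + 2 * CD + 60 / d ^ 3 + (CF + 9)) * ∑ i, cnt X (3 / 2 * d) x i ^ 2 +
      (CF + 9) * ∑ i, e i ^ 2) +
      ∑ k, ∑ i, sw X (3 / 2 * d) x i k * (Z i * tn X g x k i) := by
  have hK := K_nn hS
  have e0 : D2 X Z g x = (∑ k, ∑ l, if k < l then tp g x k l else 0) +
      ∑ k, ∑ j, Z j * tn X g x k j := rfl
  have e1 : (∑ k, ∑ l, if k < l then tp g x k l else 0) =
      ∑ k, ∑ l, (if k < l then cc X d x k l * tp g x k l else 0) +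
      (∑ k, ∑ l, (1 - cc X d x k l) * ta g x k l +
      2 * ∑ k, ∑ l, (if k < l then
        -((1 - cc X d x k l) * Tq (x k - x l) (gv g (x k)) (gv g (x l))) else 0)) := by
    rw [← VIR_pairs (fun k l => (1 - cc X d x k l) * ta g x k l)
      (fun k => by simp only [ta_self, mul_zero]), Finset.mul_sum, ← Finset.sum_add_distrib,
      ← Finset.sum_add_distrib]
    refine Finset.sum_congr rfl fun k _ => ?_
    rw [Finset.mul_sum, ← Finset.sum_add_distrib, ← Finset.sum_add_distrib]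
    refine Finset.sum_congr rfl fun l _ => ?_
    split_ifs
    · rw [cc_symm X d x l k, tp_eq]
      ring
    · ring
  have a1 := partA (g := g) h4 hd hSep hS hρ hD
  have a2 := partC (x := x) hd hSep hS hout
  have a3 : ∑ k, ∑ l, (1 - cc X d x k l) * ta g x k l + ∑ k, ∑ j, Z j * tn X g x k j ≤
      ∑ k, ∑ i, sw X (3 / 2 * d) x i k * ((CF * K ^ 2 + 9 * (K ^ 2 / ρ)) * e i) +
      ∑ k, ∑ i, sw X (3 / 2 * d) x i k * (Z i * tn X g x k i) := by
    rw [← Finset.sum_add_distrib, ← Finset.sum_add_distrib]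
    exact Finset.sum_le_sum fun k _ => partD hd hSep Z hS hρ hCF hout he hFG k
  have a4 : ∑ k, ∑ i, sw X (3 / 2 * d) x i k * ((CF * K ^ 2 + 9 * (K ^ 2 / ρ)) * e i) =
      (CF * K ^ 2 + 9 * (K ^ 2 / ρ)) * ∑ i, cnt X (3 / 2 * d) x i * e i := by
    rw [Finset.sum_comm, Finset.mul_sum]
    refine Finset.sum_congr rfl fun i _ => ?_
    rw [← Finset.sum_mul]
    change cnt X (3 / 2 * d) x i * _ = _
    ring
  have a5 : ∑ i, cnt X (3 / 2 * d) x i * e i ≤
      ∑ i, cnt X (3 / 2 * d) x i ^ 2 + ∑ i, e i ^ 2 := by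
    rw [← Finset.sum_add_distrib]
    refine Finset.sum_le_sum fun i _ => ?_
    nlinarith [sq_nonneg (cnt X (3 / 2 * d) x i - e i), sq_nonneg (cnt X (3 / 2 * d) x i),
      sq_nonneg (e i)]
  have hρ1 : ρ ≤ 1 := hρd.trans hd1
  have hq : K ^ 2 ≤ K ^ 2 / ρ ^ 2 := by
    rw [le_div_iff₀ (by positivity)]
    have : ρ ^ 2 ≤ 1 := pow_le_one₀ hρ.le hρ1
    nlinarith [sq_nonneg K]
  have hq2 : K ^ 2 / ρ ≤ K ^ 2 / ρ ^ 2 := by
    refine div_le_div_of_nonneg_left (by positivity) (by positivity) ?_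
    nlinarith
  set N := ∑ i, cnt X (3 / 2 * d) x i ^ 2 with hN
  set F := ∑ i, e i ^ 2 with hF
  set P := K ^ 2 / ρ ^ 2 with hP
  have hN0 : 0 ≤ N := Finset.sum_nonneg fun i _ => sq_nonneg _
  have hF0 : 0 ≤ F := Finset.sum_nonneg fun i _ => sq_nonneg _
  have hP0 : 0 ≤ P := by positivity
  have b1 : (CF * K ^ 2 + 9 * (K ^ 2 / ρ)) * ∑ i, cnt X (3 / 2 * d) x i * e i ≤
      (CF + 9) * P * (N + F) := by
    have c1 : CF * K ^ 2 + 9 * (K ^ 2 / ρ) ≤ (CF + 9) * P := by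
      have := mul_le_mul_of_nonneg_left hq hCF
      linarith
    have c2 : 0 ≤ CF * K ^ 2 + 9 * (K ^ 2 / ρ) := by positivity
    calc _ ≤ (CF * K ^ 2 + 9 * (K ^ 2 / ρ)) * (N + F) := mul_le_mul_of_nonneg_left a5 c2
      _ ≤ _ := mul_le_mul_of_nonneg_right c1 (by positivity)
  have b2 : CD * K ^ 2 * N ≤ CD * P * N :=
    mul_le_mul_of_nonneg_right (mul_le_mul_of_nonneg_left hq hCD) hN0
  have b3 : 30 * K ^ 2 / d ^ 3 * N ≤ 30 / d ^ 3 * P * N := by
    refine mul_le_mul_of_nonneg_right ?_ hN0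
    have := mul_le_mul_of_nonneg_left hq (by positivity : 0 ≤ 30 / d ^ 3)
    calc _ = 30 / d ^ 3 * K ^ 2 := by ring
      _ ≤ _ := this
  have b4 : (60 : ℝ) / d ^ 3 = 2 * (30 / d ^ 3) := by ring
  rw [e0, e1, b4]
  rw [a4] at a3
  nlinarith [a1, a2, a3, b1, b2, b3, hDIP]

theorem cnt_ge (hd : 0 < d) (i : Fin M) : (0 : ℝ) ≤ cnt X (3 / 2 * d) x i :=
  Finset.sum_nonneg fun k _ => sw_nonneg X (3 / 2 * d) x i k

theorem Tq_em {ξ : R3} (h : 0 < nr ξ) :
    ∑ m : Fin 3, Tq ξ (Pi.single m 1) (Pi.single m 1) = 0 := by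
  have h2 := VIR_nrsq ξ
  have e : ∀ m : Fin 3, Tq ξ (Pi.single m 1) (Pi.single m 1) =
      3 * ξ m ^ 2 / nr ξ ^ 5 - 1 / nr ξ ^ 3 := by
    intro m
    unfold Tq
    fin_cases m <;> simp [Fin.sum_univ_three, Pi.single_apply] <;> ring
  simp only [e]
  rw [Fin.sum_univ_three]
  have e3 : 3 * ξ 0 ^ 2 / nr ξ ^ 5 - 1 / nr ξ ^ 3 + (3 * ξ 1 ^ 2 / nr ξ ^ 5 - 1 / nr ξ ^ 3) +
      (3 * ξ 2 ^ 2 / nr ξ ^ 5 - 1 / nr ξ ^ 3) =
      3 * (ξ 0 ^ 2 + ξ 1 ^ 2 + ξ 2 ^ 2) / nr ξ ^ 5 - 3 / nr ξ ^ 3 := by ring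
  rw [e3, ← h2]
  field_simp
  ring

/-- the own nucleus is harmless outside the ball of radius `ρ` -/
theorem tn_le {K ρ : ℝ} (hS : Scale g K ρ) (hρ : 0 < ρ) (hd1 : ρ ≤ 1) {k : Fin n} {j : Fin M}
    (hr : ρ ≤ nr (x k - X j)) :
    |tn X g x k j| ≤ 39 * (K ^ 2 / ρ ^ 2) * (1 / nr (x k - X j)) := by
  have hK := K_nn hS
  have hR : 0 < nr (x k - X j) := hρ.trans_le hr
  unfold tn
  have h1 := dot_le (ξ := x k - X j) (v := fun i => gq g (x k) i) (a := 3 * (K ^ 2 / ρ))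
    (by positivity) (gq_le hS hρ _)
  have h2 := Tq_le (ξ := x k - X j) (v := gv g (x k)) (w := gv g (x k)) (a := K) (b := K) hK hK
    (fun m => hS.d1 m _) (fun m => hS.d1 m _)
  have h3 : |(∑ i, gq g (x k) i * (x k i - X j i)) / nr (x k - X j) ^ 3| ≤
      9 * (K ^ 2 / ρ ^ 2) * (1 / nr (x k - X j)) := by
    rw [abs_div, abs_of_pos (pow_pos hR 3), div_le_iff₀ (by positivity)]
    have h5 : 9 * (K ^ 2 / ρ ^ 2) * (1 / nr (x k - X j)) * nr (x k - X j) ^ 3 =
        9 * (K ^ 2 / ρ ^ 2) * nr (x k - X j) ^ 2 := by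
      field_simp
    rw [h5]
    refine h1.trans ?_
    have h6 : K ^ 2 / ρ ≤ K ^ 2 / ρ ^ 2 * nr (x k - X j) := by
      have h7 : K ^ 2 / ρ = K ^ 2 / ρ ^ 2 * ρ := by field_simp
      rw [h7]
      exact mul_le_mul_of_nonneg_left hr (by positivity)
    have h8 := mul_le_mul_of_nonneg_right h6 hR.le
    nlinarith
  have h4 : 30 * (K * K) / nr (x k - X j) ^ 3 ≤ 30 * (K ^ 2 / ρ ^ 2) * (1 / nr (x k - X j)) := by
    have h9 : 30 * (K ^ 2 / ρ ^ 2) * (1 / nr (x k - X j)) =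
        30 * (K * K) / (ρ ^ 2 * nr (x k - X j)) := by
      field_simp
    rw [h9]
    refine div_le_div_of_nonneg_left (by positivity) (by positivity) ?_
    have : ρ ^ 2 ≤ nr (x k - X j) ^ 2 := pow_le_pow_left₀ hρ.le hr 2
    nlinarith
  refine (abs_sub _ _).trans ?_
  linarith

/-- a function with constant derivative near `y` -/
theorem pd_const {a : R3} {r c : ℝ} {i l : Fin 3} (h : ∀ y, nr (y - a) < r → pd i g y = c)
    {y : R3} (hy : nr (y - a) < r) : pd l (pd i g) y = 0 := by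
  have hO : IsOpen {z : R3 | nr (z - a) < r} := by
    refine isOpen_lt ?_ continuous_const
    unfold nr
    fun_prop
  have he : pd i g =ᶠ[nhds y] fun _ => c := by
    filter_upwards [hO.mem_nhds hy] with z hz using h z hz
  unfold pd at he ⊢
  rw [he.fderiv_eq]
  simp

theorem own (hd : 0 < d) (hd1 : d ≤ 1) (hSep : Sep X d) {Z : Fin M → ℝ} {z : ℝ}
    (hZ0 : ∀ j, 0 ≤ Z j) (hZ : ∀ j, Z j ≤ z) {K ρ : ℝ} {gg : Fin 3 → R3 → ℝ}
    (hS : ∀ m, Scale (gg m) K ρ) (hρ : 0 < ρ) (hρd : ρ ≤ d)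
    (hnear : ∀ m j y, nr (y - X j) < ρ → ∀ i, pd i (gg m) y = if i = m then 1 else 0)
    (hout : ∀ m y, (∀ j, d / 2 < nr (y - X j)) → ∀ i, pd i (gg m) y = 0) (hD : Dist X x)
    (k : Fin n) (i : Fin M) :
    ∑ m, sw X (3 / 2 * d) x i k * (Z i * tn X (gg m) x k i) ≤
      117 * (K ^ 2 / ρ ^ 2) * z *
        (if nr (x k - X i) < d then 1 / nr (x k - X i) else 0) := by
  have hz : 0 ≤ z := (hZ0 i).trans (hZ i)
  have hR : 0 < nr (x k - X i) := lt_of_le_of_ne (VIR_nr0 _) (Ne.symm (hD.2 k i))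
  have hP : 0 ≤ 117 * (K ^ 2 / ρ ^ 2) * z *
        (if nr (x k - X i) < d then 1 / nr (x k - X i) else 0) := by
    refine mul_nonneg (by positivity) ?_
    split_ifs <;> positivity
  by_cases h : nr (x k - X i) < 3 / 2 * d
  · rw [← Finset.mul_sum, ← Finset.mul_sum, sw_one h, one_mul]
    by_cases h1 : nr (x k - X i) < ρ
    · have e1 : ∀ m, tn X (gg m) x k i = -Tq (x k - X i) (Pi.single m 1) (Pi.single m 1) := by
        intro m
        have v1 : gv (gg m) (x k) = Pi.single m 1 := by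
          funext i'
          unfold gv
          rw [hnear m i (x k) h1, Pi.single_apply]
        have v2 : ∀ i', gq (gg m) (x k) i' = 0 := by
          intro i'
          unfold gq
          refine Finset.sum_eq_zero fun l _ => ?_
          rw [pd_const (g := gg m) (fun y hy => hnear m i y hy i') h1, zero_mul]
        unfold tn
        rw [v1]
        simp [v2]
      simp only [e1, Finset.sum_neg_distrib]
      rw [Tq_em hR, neg_zero, mul_zero]
      exact hP
    · push Not at h1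
      by_cases h2 : nr (x k - X i) ≤ d / 2
      · have hlt : nr (x k - X i) < d := by linarith
        rw [if_pos hlt]
        have h3 : ∀ m, tn X (gg m) x k i ≤ 39 * (K ^ 2 / ρ ^ 2) * (1 / nr (x k - X i)) :=
          fun m => (le_abs_self _).trans (tn_le (hS m) hρ (hρd.trans hd1) h1)
        have h4 : ∑ m, tn X (gg m) x k i ≤ 117 * (K ^ 2 / ρ ^ 2) * (1 / nr (x k - X i)) := by
          rw [Fin.sum_univ_three]
          linarith [h3 0, h3 1, h3 2]
        have h5 : 0 ≤ 117 * (K ^ 2 / ρ ^ 2) * (1 / nr (x k - X i)) := by positivity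
        calc Z i * ∑ m, tn X (gg m) x k i ≤
            Z i * (117 * (K ^ 2 / ρ ^ 2) * (1 / nr (x k - X i))) :=
              mul_le_mul_of_nonneg_left h4 (hZ0 i)
          _ ≤ z * (117 * (K ^ 2 / ρ ^ 2) * (1 / nr (x k - X i))) :=
              mul_le_mul_of_nonneg_right (hZ i) h5
          _ = _ := by ring
      · push Not at h2
        have h3 : ∀ j, d / 2 < nr (x k - X j) := by
          intro j
          by_cases hj : j = i
          · rw [hj]
            exact h2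
          · have h4 := hSep j i hj
            have h5 := pgb_tri (X j) (X i) (x k)
            linarith
        have e1 : ∀ m, tn X (gg m) x k i = 0 := by
          intro m
          obtain ⟨v1, v2⟩ := van (g := gg m) (hout m) h3
          unfold tn
          rw [v1, Tq_z1]
          simp [v2]
        simp only [e1, Finset.sum_const_zero, mul_zero]
        exact hP
  · simp only [sw_zero h, zero_mul, Finset.sum_const_zero]
    exact hP

end

theorem V2I (h1 : ST_NBZ) (h2 : ST_FFZ) (h3 : ST_FGZ) (h4 : ST_DIP) (h5 : ST_KK) : ST_V2I := by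
  intro d hd hd1
  obtain ⟨C1, hC1, k1⟩ := h1 d hd hd1
  obtain ⟨C2, hC2, k2⟩ := h2 d hd hd1
  obtain ⟨CF, hCF, k3⟩ := h3 d hd hd1
  obtain ⟨CD, hCD, k4⟩ := h4 d hd hd1
  obtain ⟨P, hP⟩ : ∃ P : ℝ, P = 3 * (324 + (324 * (16 / d) + 2 * CD + 60 / d ^ 3 + (CF + 9)) * C1 +
    (CF + 9) * C2) + 117 := ⟨_, rfl⟩
  have hP0 : 0 < P := by rw [hP]; positivity
  refine ⟨P, hP0, ?_⟩
  intro z K ρ n M X Z g x hDat hK hρ hρd hS hnear hout hD
  have hSep := hDat.sep
  have hZ0 := hDat.nuc.1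
  have hz : 0 ≤ z := by linarith [hDat.z1]
  have q1 := k1 z n M X Z x hDat
  obtain ⟨e, he, q2⟩ := k2 z n M X Z x hDat
  have hmain : ∀ m, D2 X Z (g m) x ≤ K ^ 2 / ρ ^ 2 * (324 * Rem (d / 8) x +
      (324 * (16 / d) + 2 * CD + 60 / d ^ 3 + (CF + 9)) * ∑ i, cnt X (3 / 2 * d) x i ^ 2 +
      (CF + 9) * ∑ i, e i ^ 2) +
      ∑ k, ∑ i, sw X (3 / 2 * d) x i k * (Z i * tn X (g m) x k i) := by
    intro m
    refine main h5 hd hd1 hSep Z (hS m) hρ hρd hCF.le hCD.le (hout m) hD he ?_ ?_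
    · intro i v w y hv hw hy
      exact k3 n M X Z x i (e i) K v w y hSep (fun m y hy => he i m y hy) hv hw hy
    · exact k4 n M X x (fun k => gv (g m) (x k)) K hSep (fun k i => (hS m).d1 i _)
        (fun k hk => (van (hout m) hk).1)
  have hown : ∑ m, ∑ k, ∑ i, sw X (3 / 2 * d) x i k * (Z i * tn X (g m) x k i) ≤
      117 * (K ^ 2 / ρ ^ 2) * z * ∑ k, near1 X d (x k) := by
    rw [Finset.sum_comm, Finset.mul_sum]
    refine Finset.sum_le_sum fun k _ => ?_
    unfold near1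
    rw [Finset.sum_comm, Finset.mul_sum]
    exact Finset.sum_le_sum fun i _ => own hd hd1 hSep hZ0 hDat.le hS hρ hρd hnear hout hD k i
  have hR : 0 ≤ Rem (d / 8) x := by
    unfold Rem
    refine Finset.sum_nonneg fun k _ => Finset.sum_nonneg fun l _ => ?_
    split_ifs with h
    · have := (h5 (d / 8) (x k - x l) (by positivity)).2.1 (hD.1 k l h.ne)
      linarith
    · exact le_rfl
  have hD0 : 0 ≤ Dn (d / 8) X Z x := VIR_Dn _ _ _ _
  have hN1 : 0 ≤ ∑ k, near1 X d (x k) := by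
    refine Finset.sum_nonneg fun k _ => ?_
    unfold near1
    refine Finset.sum_nonneg fun j _ => ?_
    split_ifs
    · exact div_nonneg zero_le_one (VIR_nr0 _)
    · exact le_rfl
  have hM0 : (0 : ℝ) ≤ z ^ 2 * M := by positivity
  set R := Rem (d / 8) x with hRd
  set D := Dn (d / 8) X Z x with hDd
  set N := ∑ i, cnt X (3 / 2 * d) x i ^ 2 with hN
  set F := ∑ i, e i ^ 2 with hF
  set S1 := ∑ k, near1 X d (x k) with hS1
  set q := K ^ 2 / ρ ^ 2 with hq
  have hq0 : 0 ≤ q := by positivity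
  have hL : Loc d z X Z x = z ^ 2 * M + D + R + z * S1 := rfl
  have hsum : ∑ m, D2 X Z (g m) x ≤ 3 * (q * (324 * R +
      (324 * (16 / d) + 2 * CD + 60 / d ^ 3 + (CF + 9)) * N + (CF + 9) * F)) +
      117 * q * z * S1 := by
    refine (Finset.sum_le_sum fun m _ => hmain m).trans ?_
    rw [Finset.sum_add_distrib, Finset.sum_const, Finset.card_univ, Fintype.card_fin,
      nsmul_eq_mul]
    push_cast
    linarith
  refine hsum.trans ?_
  have hA : 0 ≤ 324 * (16 / d) + 2 * CD + 60 / d ^ 3 + (CF + 9) := by positivity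
  set A := 324 * (16 / d) + 2 * CD + 60 / d ^ 3 + (CF + 9) with hAd
  set L := Loc d z X Z x with hLd
  have hzS : 0 ≤ z * S1 := mul_nonneg hz hN1
  have l1 : z ^ 2 * M + D ≤ L := by rw [hL]; linarith
  have l2 : R ≤ L := by rw [hL]; linarith
  have l3 : z * S1 ≤ L := by rw [hL]; linarith
  have l4 : N ≤ C1 * L := q1.trans (mul_le_mul_of_nonneg_left l1 hC1.le)
  have l5 : F ≤ C2 * L := q2.trans (mul_le_mul_of_nonneg_left l1 hC2.le)
  have m1 : A * N ≤ A * (C1 * L) := mul_le_mul_of_nonneg_left l4 hA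
  have m2 : (CF + 9) * F ≤ (CF + 9) * (C2 * L) := mul_le_mul_of_nonneg_left l5 (by positivity)
  have m3 : 3 * (324 * R + A * N + (CF + 9) * F) + 117 * (z * S1) ≤ P * L := by
    rw [hP]
    linarith
  have m4 := mul_le_mul_of_nonneg_left m3 hq0
  calc 3 * (q * (324 * R + A * N + (CF + 9) * F)) + 117 * q * z * S1 =
      q * (3 * (324 * R + A * N + (CF + 9) * F) + 117 * (z * S1)) := by ring
    _ ≤ q * (P * L) := m4
    _ = P * K ^ 2 / ρ ^ 2 * L := by rw [hq]; ring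

end Pool.Agent.Helper49.HV
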